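import Pool.Agent.H651R2.SingGraph

set_option autoImplicit false

/-!
# Combinatorial lemmas at an arbitrary infinite cardinal, and filtrations with gaps
-/

namespace Pool.Agent.TH764.SB

open Cardinal Set Pool.Agent.H651R2

universe u

/-- a set of size larger than `c` is not covered by few small sets. -/
theorem exists_not_mem_biUnion {ι α : Type u} {c : Cardinal.{u}} (hc : ℵ₀ ≤ c) (s : Set ι)
    (hs : #s ≤ c) (f : ι → Set α) (E : Set α) (hE : ¬ #E ≤ c)
    (hf : ∀ i ∈ s, #(E ∩ f i : Set α) ≤ c) : ∃ x ∈ E, ∀ i ∈ s, x ∉ f i := by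
  by_contra h
  push Not at h
  apply hE
  refine small_mono (t := ⋃ i ∈ s, E ∩ f i) ?_ (small_biUnion hc s hs _ hf)
  intro x hx
  obtain ⟨i, hi, hxi⟩ := h x hx
  simp only [mem_iUnion]
  exact ⟨i, hi, hx, hxi⟩

/-- Independent transversals. -/
theorem exists_indep_transversal {ι K : Type u} [Nonempty K] {c : Cardinal.{u}} (hc : ℵ₀ ≤ c)
    (hι : #ι ≤ c) (T : ι → Set K) (hT : ∀ i, ¬ #(T i) ≤ c) (R : K → K → Prop)
    (hR : ∀ i j, i ≠ j → ∀ x ∈ T j, #{b ∈ T i | R x b ∨ R b x} ≤ c) :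
    ∃ x : ι → K, (∀ i, x i ∈ T i) ∧ ∀ i j, i ≠ j → ¬ R (x i) (x j) := by
  have wf : WellFounded (WellOrderingRel : ι → ι → Prop) := IsWellFounded.wf
  obtain ⟨x, hx⟩ := rec_choice (β := K) wf
    (fun i f b => b ∈ T i ∧ ∀ j, WellOrderingRel j i → f j ∈ T j → ¬ (R (f j) b ∨ R b (f j)))
    (by
      intro i f g b hfg h
      refine ⟨h.1, ?_⟩
      intro j hj hgj
      rw [← hfg j hj] at hgj ⊢
      exact h.2 j hj hgj)
    (by
      intro i f _
      obtain ⟨b, hb, hb2⟩ := exists_not_mem_biUnion hc (univ : Set ι) (by simpa using hι)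
        (fun j => {b | j ≠ i ∧ f j ∈ T j ∧ (R (f j) b ∨ R b (f j))}) (T i) (hT i)
        (by
          intro j _
          by_cases hj : j ≠ i ∧ f j ∈ T j
          · refine small_mono ?_ (hR i j (Ne.symm hj.1) (f j) hj.2)
            rintro b ⟨hb, hb2⟩
            exact ⟨hb, hb2.2.2⟩
          · refine small_subsingleton hc ?_
            rintro b ⟨_, hb2⟩
            exact absurd ⟨hb2.1, hb2.2.1⟩ hj)
      refine ⟨b, hb, ?_⟩
      intro j hj hfj hR'
      have hji : j ≠ i := by
        rintro rfl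
        exact (irrefl_of WellOrderingRel j) hj
      exact hb2 j (mem_univ _) ⟨hji, hfj, hR'⟩)
  refine ⟨x, fun i => (hx i).1, ?_⟩
  intro i j hij hRij
  rcases trichotomous_of (WellOrderingRel : ι → ι → Prop) i j with h | h | h
  · exact (hx j).2 i h (hx i).1 (Or.inl hRij)
  · exact hij h
  · exact (hx i).2 j h (hx j).1 (Or.inr hRij)

/-- A weak form of the Delta-system lemma. -/
theorem weak_delta {E K : Type u} {c : Cardinal.{u}} (hc : ℵ₀ ≤ c) (hE : ¬ #E ≤ c)
    (Z : E → Set K) (hZ : ∀ b, #(Z b) < c) :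
    ∃ (T : Set E) (R : Set K), (¬ #T ≤ c) ∧ #R ≤ c ∧
      ∀ b ∈ T, ∀ b' ∈ T, b ≠ b' → Z b ∩ Z b' ⊆ R := by
  by_contra hcon
  push Not at hcon
  -- maximal families
  have hmax : ∀ R : Set K, ∃ T : Set E, T.Pairwise (fun b b' => Z b ∩ Z b' ⊆ R) ∧
      ∀ b, b ∉ T → ∃ b' ∈ T, ¬ (Z b ∩ Z b' ⊆ R) := by
    intro R
    obtain ⟨T, hT⟩ := zorn_subset {T : Set E | T.Pairwise (fun b b' => Z b ∩ Z b' ⊆ R)} (by
      intro c hc hchain
      refine ⟨⋃₀ c, ?_, fun s hs => subset_sUnion_of_mem hs⟩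
      exact (pairwise_sUnion hchain.directedOn).2 (fun s hs => hc hs))
    refine ⟨T, hT.prop, ?_⟩
    intro b hb
    by_contra h
    push Not at h
    have h2 : (insert b T).Pairwise (fun b b' => Z b ∩ Z b' ⊆ R) := by
      rw [pairwise_insert]
      refine ⟨hT.prop, ?_⟩
      intro b' hb' _
      refine ⟨h b' hb', ?_⟩
      rw [inter_comm]
      exact h b' hb'
    exact hb (hT.le_of_ge h2 (subset_insert b T) (mem_insert b T))
  choose M hM1 hM2 using hmax
  have hMsmall : ∀ R : Set K, #R ≤ c → #(M R) ≤ c := by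
    intro R hR
    by_contra h
    obtain ⟨b, hb, b', hb', hne, hsub⟩ := hcon (M R) R (not_le.1 h) hR
    exact hsub (hM1 R hb hb' hne)
  let F : Set K → Set K := fun R => R ∪ ⋃ b ∈ M R, Z b
  have hF : ∀ R : Set K, #R ≤ c → #(F R) ≤ c := by
    intro R hR
    exact small_union hc hR
      (small_biUnion hc _ (hMsmall R hR) _ (fun b _ => (hZ b).le))
  -- the recursion
  let W := c.ord.ToType
  have hWcard : #W = c := Cardinal.mk_ord_toType _
  obtain ⟨R, hR⟩ := rec_choice (ι := W) (β := Set K) (r := (· < ·)) wellFounded_lt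
    (fun ξ f b => b = ⋃ η ∈ Iio ξ, F (f η))
    (by
      intro i f g b hfg h
      rw [h]
      refine iUnion₂_congr ?_
      intro j hj
      rw [hfg j hj])
    (by
      intro i f _
      exact ⟨_, rfl⟩)
  have hRsmall : ∀ ξ, #(R ξ) ≤ c := by
    intro ξ
    induction ξ using WellFoundedLT.induction with
    | _ ξ ih =>
      rw [hR ξ]
      refine small_biUnion hc _ ?_ _ ?_
      · exact (Cardinal.mk_set_le _).trans hWcard.le
      · intro η hη
        exact hF _ (ih η hη)
  -- pick a point outside all the maximal families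
  have hall : #(⋃ ξ, M (R ξ) : Set E) ≤ c :=
    small_iUnion hc hWcard.le _ (fun ξ => hMsmall _ (hRsmall ξ))
  have hEuniv : ¬ #(univ : Set E) ≤ c := by simpa using hE
  obtain ⟨b, _, hb⟩ := exists_of_not_small (not_small_diff hc hEuniv hall)
  have hb' : ∀ ξ, b ∉ M (R ξ) := by
    intro ξ h
    exact hb (mem_iUnion.2 ⟨ξ, h⟩)
  have hz : ∀ ξ : W, ∃ z, z ∈ Z b ∧ z ∉ R ξ ∧ z ∈ F (R ξ) := by
    intro ξ
    obtain ⟨b', hb'M, hnot⟩ := hM2 (R ξ) b (hb' ξ)
    rw [not_subset] at hnot
    obtain ⟨z, hz, hzR⟩ := hnot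
    refine ⟨z, hz.1, hzR, Or.inr ?_⟩
    simp only [mem_iUnion]
    exact ⟨b', hb'M, hz.2⟩
  choose z hz1 hz2 hz3 using hz
  have hinj : Function.Injective z := by
    have key : ∀ ξ η : W, ξ < η → z ξ ≠ z η := by
      intro ξ η hlt heq
      apply hz2 η
      rw [hR η]
      simp only [mem_iUnion]
      exact ⟨ξ, hlt, heq ▸ hz3 ξ⟩
    intro ξ η heq
    rcases lt_trichotomy ξ η with h | h | h
    · exact absurd heq (key ξ η h)
    · exact h
    · exact absurd heq.symm (key η ξ h)
  have : #W ≤ #(Z b) := by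
    refine Cardinal.mk_le_of_injective (f := fun ξ => (⟨z ξ, hz1 ξ⟩ : Z b)) ?_
    intro ξ η h
    exact hinj (Subtype.ext_iff.1 h)
  rw [hWcard] at this
  exact absurd (hZ b) (not_lt.2 this)

/-- each level is larger than all the previous levels together -/
def Gap {lam : Cardinal.{u}} {I : Type u} [LinearOrder I] (S : SData lam I) : Prop :=
  ∀ n, ∃ c : Cardinal.{u}, ℵ₀ ≤ c ∧ #I ≤ c ∧ c < S.lv n ∧ ∀ m < n, S.lv m ≤ c

theorem exists_sdata_gap (lam : Cardinal.{u}) (h : lam.IsSingular) :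
    ∃ S : SData lam lam.ord.cof.ord.ToType, Gap S := by
  classical
  have hlam : ℵ₀ ≤ lam := h.aleph0_le
  obtain ⟨f, hf1, hf2⟩ := exists_cofinal_cardinals lam
  have hlim : Order.IsSuccLimit lam := by
    refine ⟨?_, ?_⟩
    · intro hmin
      have := hmin (b := 0) (zero_le)
      exact absurd (hlam.trans this) (not_le.2 aleph0_pos)
    · intro c hc
      have h1 : Order.succ c = lam := hc.succ_eq
      have h2 : ℵ₀ ≤ c := by
        by_contra hcon
        rw [not_le] at hcon
        have h3 : Order.succ c < ℵ₀ := isSuccLimit_aleph0.succ_lt hcon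
        rw [h1] at h3
        exact absurd hlam (not_le.2 h3)
      exact h.not_isRegular (h1 ▸ isRegular_succ h2)
  obtain ⟨lv, hlv⟩ := rec_choice (ι := lam.ord.cof.ord.ToType) (β := Cardinal.{u})
    (r := (· < ·)) wellFounded_lt
    (fun i g b => b < lam ∧ f i ≤ b ∧ ∃ c, ℵ₀ ≤ c ∧ lam.ord.cof ≤ c ∧ Order.succ c ≤ b ∧
      ∀ j < i, g j < lam → Order.succ (g j) ≤ c)
    (by
      rintro i g g' b hgg ⟨h1, h2, c, h3, h4, h5, h6⟩
      refine ⟨h1, h2, c, h3, h4, h5, fun j hj hlt => ?_⟩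
      rw [← hgg j hj] at hlt ⊢
      exact h6 j hj hlt)
    (by
      intro i g _
      let s : Iio i → Cardinal.{u} := fun j => if g j < lam then Order.succ (g j) else 0
      have hs : (⨆ j, s j) < lam := by
        refine iSup_lt_of_lt_cof_ord ?_ ?_
        · have := mk_Iio_lt i (by rw [mk_ord_toType]; simp)
          rwa [mk_ord_toType] at this
        · intro j
          change (if g j < lam then Order.succ (g j) else 0) < lam
          split_ifs with hj
          · exact hlim.succ_lt hj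
          · exact aleph0_pos.trans_le hlam
      have h0 : ℵ₀ < lam := by
        rcases eq_or_lt_of_le hlam with h0 | h0
        · exact absurd (h0 ▸ isRegular_aleph0) h.not_isRegular
        · exact h0
      have hc : max (max ℵ₀ lam.ord.cof) (⨆ j, s j) < lam :=
        max_lt (max_lt h0 h.cof_ord_lt) hs
      refine ⟨max (f i) (Order.succ (max (max ℵ₀ lam.ord.cof) (⨆ j, s j))), ?_, ?_,
        max (max ℵ₀ lam.ord.cof) (⨆ j, s j), ?_, ?_, ?_, ?_⟩
      · exact max_lt (hf1 i) (hlim.succ_lt hc)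
      · exact le_max_left _ _
      · exact (le_max_left _ _).trans (le_max_left _ _)
      · exact (le_max_right _ _).trans (le_max_left _ _)
      · exact le_max_right _ _
      · intro j hj hlt
        refine le_trans ?_ (le_max_right _ _)
        have h1 : Order.succ (g j) = s ⟨j, hj⟩ := (if_pos hlt).symm
        rw [h1]
        exact le_ciSup (Cardinal.bddAbove_of_small) _)
  refine ⟨{
    lv := lv
    inf := fun i => by
      obtain ⟨_, _, c, h3, _, h5, _⟩ := hlv i
      exact h3.trans ((Order.le_succ c).trans h5)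
    card_le := fun i => by
      rw [mk_ord_toType]
      obtain ⟨_, _, c, _, h4, h5, _⟩ := hlv i
      exact h4.trans ((Order.le_succ c).trans h5)
    lt := fun i j hij => by
      obtain ⟨_, _, c, _, _, h5, h6⟩ := hlv j
      exact (h6 i hij (hlv i).1).trans ((Order.le_succ c).trans h5)
    lt_lam := fun i => (hlv i).1
    succ_lt := fun c hc => hlim.succ_lt hc
    cof := fun c hc => by
      obtain ⟨i, hi⟩ := hf2 c hc
      exact ⟨i, hi.trans (hlv i).2.1⟩ }, ?_⟩
  intro n
  obtain ⟨_, _, c, h3, h4, h5, h6⟩ := hlv n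
  refine ⟨c, h3, ?_, Order.succ_le_iff.1 h5, ?_⟩
  · rw [mk_ord_toType]
    exact h4
  · intro m hm
    exact (Order.le_succ _).trans (h6 m hm (hlv m).1)

end Pool.Agent.TH764.SB
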