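import Pool.Agent.TH764.SB.Guess

set_option autoImplicit false

/-!
# A graph on the successor of a singular cardinal without large complete subgraphs
-/

namespace Pool.Agent.TH764.SB

open Cardinal Set Pool.Agent.H651R2

universe u

section
variable {lam : Cardinal.{u}} {I : Type u} [LinearOrder I] {K : Type u} [LinearOrder K]

/-- the invariants at `α` -/
structure InvI (S : SData lam I) (D : DSys S K) (E : I → K → Set K) (α : K) (X : K → I → Set K)
    (Y : I → Set K) : Prop where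
  sub : ∀ n, Y n ⊆ Iio α
  card : ∀ n, #(Y n) ≤ S.lv n
  disj : ∀ n, ∀ β ∈ D.D n α, ∀ x ∈ Y n, x ∉ Nb X β
  ladder : ∀ n m δ, GoodI S D m δ (E m δ) → #(Y n ∩ E m δ : Set K) ≤ S.lv m
  indep : ∀ n, ∀ x ∈ Y n, ∀ y ∈ Y n, x ∉ Nb X y
  hit : ∀ n, ∀ δ ∈ D.D n α, GoodI S D n δ (E n δ) → ∃ x ∈ Y n, x ∈ E n δ

theorem nb_ladderI {S : SData lam I} {D : DSys S K} {E : I → K → Set K} {α : K}
    {X : K → I → Set K} (h : InvI S D E α X (X α)) (m : I) (δ : K)
    (hδ : GoodI S D m δ (E m δ)) :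
    #(Nb X α ∩ E m δ : Set K) ≤ S.lv m := by
  have : Nb X α ∩ E m δ = ⋃ n, X α n ∩ E m δ := by
    unfold Nb
    rw [iUnion_inter]
  rw [this]
  exact small_iUnion (S.inf m) (S.card_le m) _ (fun n => h.ladder n m δ hδ)

theorem nb_subI {S : SData lam I} {D : DSys S K} {E : I → K → Set K} {α : K} {X : K → I → Set K}
    (h : InvI S D E α X (X α)) : Nb X α ⊆ Iio α := by
  intro x hx
  obtain ⟨n, hn⟩ := mem_iUnion.1 hx
  exact h.sub n hn

/-- thinning out a ladder -/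
theorem thin [WellFoundedLT K] {S : SData lam I} (hS : Gap S) {D : DSys S K} {E : I → K → Set K}
    {X : K → I → Set K} {n : I} {δ : K}
    (hX : ∀ β < δ, InvI S D E β X (X β)) (hδ : GoodI S D n δ (E n δ)) :
    ∃ T R : Set K, T ⊆ E n δ ∧ (¬ #T ≤ S.lv n) ∧ #R ≤ S.lv n ∧
      ∀ x, x ∉ R → #{b ∈ T | x ∈ Nb X b} ≤ S.lv n := by
  obtain ⟨c, hc0, hcI, hcn, hcm⟩ := hS n
  have hZ : ∀ b : E n δ, #(⋃ m ∈ Iio n, X b.1 m : Set K) < S.lv n := by
    intro b
    have hb : b.1 < δ := hδ.good.sub b.2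
    refine lt_of_le_of_lt (small_biUnion hc0 (Iio n) ((mk_set_le _).trans hcI) _ ?_) hcn
    intro m hm
    exact ((hX b.1 hb).card m).trans (hcm m hm)
  obtain ⟨T, R, hT, hR, hTR⟩ := weak_delta (S.inf n) hδ.good.not_small
    (fun b : E n δ => ⋃ m ∈ Iio n, X b.1 m) hZ
  refine ⟨Subtype.val '' T, R, ?_, ?_, hR, ?_⟩
  · rintro x ⟨b, _, rfl⟩
    exact b.2
  · rw [Cardinal.mk_image_eq Subtype.val_injective]
    exact hT
  · intro x hx
    -- the set of all `b` with `x ∈ Nb X b`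
    by_cases hne : {b ∈ Subtype.val '' T | x ∈ Nb X b}.Nonempty
    · have hwf : WellFounded ((· < ·) : K → K → Prop) := wellFounded_lt
      obtain ⟨b0, hb0, hmin⟩ : ∃ b0 ∈ {b ∈ Subtype.val '' T | x ∈ Nb X b},
          ∀ b ∈ {b ∈ Subtype.val '' T | x ∈ Nb X b}, b0 ≤ b :=
        ⟨hwf.min _ hne, hwf.min_mem _ hne, fun b hb => not_lt.1 (hwf.not_lt_min _ hb)⟩
      refine small_mono (t := {b0} ∪ {b | ∃ h : b ∈ E n δ, (⟨b, h⟩ : E n δ) ∈ T ∧
          x ∈ ⋃ m ∈ Iio n, X b m}) ?_ (small_union (S.inf n) ?_ ?_)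
      · rintro b hb
        rcases eq_or_lt_of_le (hmin b hb) with h | h
        · exact Or.inl h.symm
        · right
          obtain ⟨⟨b', hb'T, hb'⟩, hxb⟩ := hb
          obtain ⟨⟨b0', hb0'T, hb0'⟩, hxb0⟩ := hb0
          subst hb'
          subst hb0'
          refine ⟨b'.2, hb'T, ?_⟩
          obtain ⟨m, hm⟩ := mem_iUnion.1 hxb
          simp only [mem_iUnion]
          refine ⟨m, ?_, hm⟩
          by_contra hmn
          have hmn' : n ≤ m := not_lt.1 hmn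
          have h1 : b0'.1 ∈ D.D m b'.1 := D.mono n m _ hmn' (hδ.init b'.1 b'.2 ⟨b0'.2, h⟩)
          exact (hX b'.1 (hδ.good.sub b'.2)).disj m b0'.1 h1 x hm hxb0
      · exact small_subsingleton (S.inf n) subsingleton_singleton
      · refine small_subsingleton (S.inf n) ?_
        rintro b ⟨hb, hbT, hxb⟩ b' ⟨hb', hb'T, hxb'⟩
        by_contra hne
        exact hx (hTR _ hbT _ hb'T (fun h => hne (Subtype.ext_iff.1 h)) ⟨hxb, hxb'⟩)
    · rw [not_nonempty_iff_eq_empty] at hne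
      rw [hne]
      simp

/-- one step of the construction -/
theorem step_oneI [WellFoundedLT K] [Nonempty K] {S : SData lam I} (hS : Gap S) {D : DSys S K}
    {E : I → K → Set K} {X : K → I → Set K} {α : K}
    (hX : ∀ β < α, InvI S D E β X (X β)) (n : I) :
    ∃ Y : Set K, Y ⊆ Iio α ∧ #Y ≤ S.lv n ∧ (∀ β ∈ D.D n α, ∀ x ∈ Y, x ∉ Nb X β) ∧
      (∀ m δ, GoodI S D m δ (E m δ) → #(Y ∩ E m δ : Set K) ≤ S.lv m) ∧
      (∀ x ∈ Y, ∀ y ∈ Y, x ∉ Nb X y) ∧
      (∀ δ ∈ D.D n α, GoodI S D n δ (E n δ) → ∃ x ∈ Y, x ∈ E n δ) := by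
  classical
  have hc := S.inf n
  let Δ : Set K := {δ | δ ∈ D.D n α ∧ GoodI S D n δ (E n δ)}
  have hΔcard : #Δ ≤ S.lv n := small_mono (fun δ hδ => hδ.1) (D.card n α)
  have hΔα : ∀ δ ∈ Δ, δ < α := fun δ hδ => D.sub n α hδ.1
  have hthin : ∀ δ : Δ, ∃ T R : Set K, T ⊆ E n δ.1 ∧ (¬ #T ≤ S.lv n) ∧ #R ≤ S.lv n ∧
      ∀ x, x ∉ R → #{b ∈ T | x ∈ Nb X b} ≤ S.lv n :=
    fun δ => thin hS (fun β hβ => hX β (hβ.trans (hΔα δ.1 δ.2))) δ.2.2
  choose T R hTE hT hR hTR using hthin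
  -- the bad set
  let Bad : Set K := (⋃ δ : Δ, R δ) ∪
    ⋃ m ∈ Iio n, ⋃ δ ∈ {δ ∈ H651R2.Acc Δ | GoodI S D m δ (E m δ)}, E m δ
  have hBad : #Bad ≤ S.lv n := by
    refine small_union hc (small_iUnion hc hΔcard _ hR) ?_
    refine small_biUnion hc (Iio n) ((mk_set_le _).trans (S.card_le n)) _ ?_
    intro m hm
    refine small_biUnion hc _ (small_mono (fun δ hδ => hδ.1) (mk_Acc hc Δ hΔcard)) _ ?_
    intro δ hδ
    exact hδ.2.good.card_le.trans (S.lt m n hm)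
  let T' : Δ → Set K := fun δ => {b ∈ T δ | b ∉ Bad ∧ (∀ β ∈ D.D n α, b ∉ Nb X β) ∧
    ∀ δ' ∈ Δ, δ' < δ.1 → δ' < b}
  have hT' : ∀ δ, ¬ #(T' δ) ≤ S.lv n := by
    intro δ h
    have h1 : ¬ #(T δ \ (Bad ∪ ((⋃ β ∈ D.D n α, (Nb X β ∩ E n δ.1)) ∪
        ⋃ δ' ∈ {δ' ∈ Δ | δ' < δ.1}, (E n δ.1 ∩ Iic δ'))) : Set K) ≤ S.lv n := by
      refine not_small_diff hc (hT δ) (small_union hc hBad (small_union hc ?_ ?_))
      · refine small_biUnion hc _ (D.card n α) _ ?_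
        intro β hβ
        exact nb_ladderI (hX β (D.sub n α hβ)) n δ.1 δ.2.2
      · refine small_biUnion hc _ (small_mono (fun x hx => hx.1) hΔcard) _ ?_
        intro δ' hδ'
        exact δ.2.2.good.bdd δ' hδ'.2
    apply h1
    refine small_mono ?_ h
    rintro b ⟨hb, hb2⟩
    simp only [mem_union, mem_iUnion, not_or, not_exists] at hb2
    obtain ⟨hb3, hb4, hb5⟩ := hb2
    refine ⟨hb, ?_, ?_, ?_⟩
    · simpa [Bad] using hb3
    · intro β hβ hbβ
      exact hb4 β hβ ⟨hbβ, hTE δ hb⟩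
    · intro δ' hδ' hlt
      by_contra hnot
      exact hb5 δ' ⟨hδ', hlt⟩ ⟨hTE δ hb, not_lt.1 hnot⟩
  obtain ⟨x, hx1, hx2⟩ := exists_indep_transversal hc hΔcard T' hT' (fun x b => x ∈ Nb X b) (by
    intro i j _ x hx
    have hxα : x < α := (j.2.2.good.sub (hTE j hx.1)).trans (hΔα j.1 j.2)
    have hxR : x ∉ R i := by
      intro h
      exact hx.2.1 (Or.inl (mem_iUnion.2 ⟨i, h⟩))
    refine small_mono (t := {b ∈ T i | x ∈ Nb X b} ∪ (Nb X x ∩ E n i.1)) ?_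
      (small_union hc (hTR i x hxR) (nb_ladderI (hX x hxα) n i.1 i.2.2))
    rintro b ⟨hb, hb2 | hb2⟩
    · exact Or.inl ⟨hb.1, hb2⟩
    · exact Or.inr ⟨hb2, hTE i hb.1⟩)
  have hxE : ∀ δ : Δ, x δ ∈ E n δ.1 := fun δ => hTE δ (hx1 δ).1
  have hxlt : ∀ δ : Δ, x δ < δ.1 := fun δ => δ.2.2.good.sub (hxE δ)
  have hxα : ∀ δ : Δ, x δ < α := fun δ => (hxlt δ).trans (hΔα δ.1 δ.2)
  have hrange : #(range x) ≤ S.lv n := Cardinal.mk_range_le.trans hΔcard
  refine ⟨range x, ?_, hrange, ?_, ?_, ?_, ?_⟩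
  · rintro _ ⟨δ, rfl⟩
    exact hxα δ
  · rintro β hβ _ ⟨δ, rfl⟩
    exact (hx1 δ).2.2.1 β hβ
  · intro m δ' hδ'
    by_cases hmn : n ≤ m
    · exact (small_mono inter_subset_left hrange).trans (S.mono hmn)
    · have hmn' : m < n := not_le.1 hmn
      have hcm := S.inf m
      by_cases hacc : δ' ∈ H651R2.Acc Δ
      · have : (range x ∩ E m δ' : Set K) = ∅ := by
          rw [← not_nonempty_iff_eq_empty]
          rintro ⟨_, ⟨δ, rfl⟩, h⟩
          apply (hx1 δ).2.1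
          right
          simp only [mem_iUnion]
          exact ⟨m, hmn', δ', ⟨hacc, hδ'⟩, h⟩
        rw [this]
        simp
      · unfold H651R2.Acc at hacc
        simp only [mem_ofPred_eq] at hacc
        push Not at hacc
        obtain ⟨ξ, hξ, hξ2⟩ := hacc
        refine small_mono (t := (E m δ' ∩ Iic ξ) ∪ {y | (∃ δ, x δ = y) ∧ ξ < y ∧ y < δ'}) ?_
          (small_union hcm (hδ'.good.bdd ξ hξ) (small_subsingleton hcm ?_))
        · rintro y ⟨hy1, hy2⟩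
          by_cases h : y ≤ ξ
          · exact Or.inl ⟨hy2, h⟩
          · exact Or.inr ⟨hy1, not_le.1 h, hδ'.good.sub hy2⟩
        · have key : ∀ δ₁ δ₂ : Δ, δ₁.1 < δ₂.1 → ξ < x δ₁ → x δ₂ < δ' → False := by
            intro δ₁ δ₂ hlt h1 h2
            have h3 : δ' ≤ δ₁.1 := hξ2 δ₁.1 δ₁.2 (h1.trans (hxlt δ₁))
            have h4 : δ₁.1 < x δ₂ := (hx1 δ₂).2.2.2 δ₁.1 δ₁.2 hlt
            exact absurd (h4.trans h2) (not_lt.2 h3)
          rintro _ ⟨⟨δ₁, rfl⟩, h1, h2⟩ _ ⟨⟨δ₂, rfl⟩, h3, h4⟩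
          rcases lt_trichotomy δ₁.1 δ₂.1 with h | h | h
          · exact (key δ₁ δ₂ h h1 h4).elim
          · rw [Subtype.ext h]
          · exact (key δ₂ δ₁ h h3 h2).elim
  · rintro _ ⟨δ₁, rfl⟩ _ ⟨δ₂, rfl⟩ hmem
    by_cases h : δ₁ = δ₂
    · subst h
      exact lt_irrefl _ (nb_subI (hX _ (hxα δ₁)) hmem)
    · exact hx2 δ₁ δ₂ h hmem
  · intro δ hδ hgood
    exact ⟨x ⟨δ, hδ, hgood⟩, ⟨_, rfl⟩, hxE ⟨δ, hδ, hgood⟩⟩

theorem exists_graphI [WellFoundedLT K] [Nonempty K] (S : SData lam I) (hS : Gap S)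
    (D : DSys S K) (E : I → K → Set K) :
    ∃ X : K → I → Set K, ∀ α, InvI S D E α X (X α) := by
  have hNb : ∀ (f g : K → I → Set K) (β : K), f β = g β → Nb f β = Nb g β := by
    intro f g β h
    unfold Nb
    rw [h]
  obtain ⟨X, hX⟩ := rec_choice (ι := K) (β := I → Set K) (r := (· < ·)) wellFounded_lt
    (fun α f Y => InvI S D E α f Y)
    (by
      intro α f g Y hfg h
      refine ⟨h.sub, h.card, ?_, h.ladder, ?_, h.hit⟩
      · intro n β hβ x hx
        rw [← hNb f g β (hfg β (D.sub n α hβ))]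
        exact h.disj n β hβ x hx
      · intro n x hx y hy
        rw [← hNb f g y (hfg y (h.sub n hy))]
        exact h.indep n x hx y hy)
    (by
      intro α f hf
      choose Y h1 h2 h3 h4 h5 h6 using
        fun n => step_oneI hS (D := D) (E := E) (X := f) (α := α) hf n
      exact ⟨Y, h1, h2, h3, fun n m δ hδ => h4 n m δ hδ, h5, h6⟩)
  exact ⟨X, hX⟩

/-- Let `lam` be a singular strong limit cardinal with `2 ^ lam = lam⁺`, and let `K` be a
well-ordered set of type `lam⁺`. There is a graph on `K`, given by the sets `N α ⊆ Iio α` of lower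
neighbours, such that each point of a complete subgraph has fewer than `cf lam` predecessors
in it unless it is the last point, and such that each unbounded set has a subset of size at
most `lam` which meets `N α` for all sufficiently large `α`. -/
theorem exists_clique_free [WellFoundedLT K] (hsing : lam.IsSingular)
    (hstrong : ∀ c < lam, (2 : Cardinal.{u}) ^ c ≤ lam)
    (h2 : (2 : Cardinal.{u}) ^ lam = Order.succ lam)
    (hK : #K = Order.succ lam) (hI : ∀ a : K, #(Iio a) ≤ lam) :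
    ∃ N : K → Set K, (∀ α, N α ⊆ Iio α) ∧
      (∀ α β, β ∈ N α → ∀ C : Set K, C ⊆ N α ∩ N β → (∀ x ∈ C, ∀ y ∈ C, x < y → x ∈ N y) →
        #C < lam.ord.cof) ∧
      ∀ A : Set K, (∀ γ, ∃ α ∈ A, γ < α) → ∃ A₀ ⊆ A, #A₀ ≤ lam ∧
        ∃ b, ∀ α, b < α → (N α ∩ A₀).Nonempty := by
  obtain ⟨S, hS⟩ := exists_sdata_gap lam hsing
  have hlam : ℵ₀ ≤ lam := hsing.aleph0_le
  have hKne : Nonempty K := by
    rw [← Cardinal.mk_ne_zero_iff, hK]
    exact (Order.bot_lt_succ lam).ne'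
  obtain ⟨i0, -⟩ := S.cof 0 (aleph0_pos.trans_le hlam)
  have hG : ∀ i, (2 : Cardinal.{u}) ^ S.lv i ≤ lam := fun i => hstrong _ (S.lt_lam i)
  obtain ⟨a, idx, ha⟩ := exists_enum hlam K (Xi S) h2 hK (mk_Xi S i0 hG)
  obtain ⟨g, hg⟩ := exists_injections (K := K) S hlam hI
  let D := mkDSys S a idx ha g hg
  choose E hE using fun n => guessI S hK hI hG a idx ha g hg D n
  obtain ⟨X, hX⟩ := exists_graphI S hS D E
  have hIlam : #(lam.ord.cof.ord.ToType) ≤ lam := (S.card_le i0).trans (S.lt_lam i0).le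
  refine ⟨fun α => Nb X α, ?_, ?_, ?_⟩
  · intro α x hx
    exact nb_subI (hX α) hx
  · intro α β hβ C hC hclique
    obtain ⟨n, hn⟩ := D.union α β (nb_subI (hX α) hβ)
    have hm : ∀ x : C, ∃ m < n, x.1 ∈ X α m := by
      intro x
      obtain ⟨m, hm⟩ := mem_iUnion.1 (hC x.2).1
      refine ⟨m, ?_, hm⟩
      by_contra hnot
      have h2 : β ∈ D.D m α := D.mono n m α (not_lt.1 hnot) hn
      exact (hX α).disj m β h2 x hm (hC x.2).2
    choose m hm1 hm2 using hm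
    have hinj : Function.Injective (fun x : C => (⟨m x, hm1 x⟩ : Iio n)) := by
      intro x y hxy
      have hmm : m x = m y := congrArg Subtype.val hxy
      have hx2 := hm2 x
      have hy2 := hm2 y
      rw [hmm] at hx2
      rcases lt_trichotomy x.1 y.1 with h | h | h
      · exact absurd (hclique x.1 x.2 y.1 y.2 h) ((hX α).indep _ _ hx2 _ hy2)
      · exact Subtype.ext h
      · exact absurd (hclique y.1 y.2 x.1 x.2 h) ((hX α).indep _ _ hy2 _ hx2)
    refine lt_of_le_of_lt (Cardinal.mk_le_of_injective hinj) ?_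
    have h3 := mk_Iio_lt n (by rw [mk_ord_toType]; simp)
    rwa [mk_ord_toType] at h3
  · intro A hA
    obtain ⟨n0, hn0⟩ := cat_of_unbounded S i0 hK hI D A hA
    have hδ : ∀ n, ∃ δ, n0 ≤ n → E n δ ⊆ A ∧ GoodI S D n δ (E n δ) := by
      intro n
      by_cases h : n0 ≤ n
      · obtain ⟨δ, hδ⟩ := hE n A (hn0 n h)
        exact ⟨δ, fun _ => hδ⟩
      · exact ⟨Classical.arbitrary K, fun h' => absurd h' h⟩
    choose δ hδ using hδ
    obtain ⟨i, hi⟩ := D.capture (fun n => {δ n}) (fun n =>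
      small_subsingleton (S.inf n) subsingleton_singleton)
    obtain ⟨b, hb⟩ := strict_bound hlam hK hI ({i} ∪ range δ) (by
      refine small_union hlam ?_ ?_
      · exact small_subsingleton hlam subsingleton_singleton
      · exact Cardinal.mk_range_le.trans hIlam)
    refine ⟨⋃ n ∈ {n | n0 ≤ n}, E n (δ n), ?_, ?_, b, ?_⟩
    · intro x hx
      simp only [mem_iUnion] at hx
      obtain ⟨n, hn, hx⟩ := hx
      exact (hδ n hn).1 hx
    · refine small_biUnion hlam _ ((mk_set_le _).trans hIlam) _ ?_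
      intro n hn
      exact (hδ n hn).2.good.card_le.trans (S.succ_lt _ (S.lt_lam n)).le
    · intro α hbα
      obtain ⟨n1, hn1⟩ := hi α ((hb i (Or.inl rfl)).trans hbα)
      obtain ⟨n, hn0', hn1'⟩ : ∃ n, n0 ≤ n ∧ n1 ≤ n :=
        ⟨max n0 n1, le_max_left _ _, le_max_right _ _⟩
      have hmem : δ n ∈ D.D n α := hn1 n hn1' ⟨rfl, (hb _ (Or.inr ⟨n, rfl⟩)).trans hbα⟩
      obtain ⟨x, hxX, hxE⟩ := (hX α).hit n (δ n) hmem (hδ n hn0').2
      refine ⟨x, mem_iUnion.2 ⟨n, hxX⟩, ?_⟩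
      simp only [mem_iUnion]
      exact ⟨n, hn0', hxE⟩

end

end Pool.Agent.TH764.SB
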