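import Pool.Agent.TH764.SB.Base

set_option autoImplicit false

/-!
# Guessing unbounded sets on coherent ladders below the successor of a singular cardinal
-/

namespace Pool.Agent.TH764.SB

open Cardinal Set Pool.Agent.H651R2

universe u

section
variable {lam : Cardinal.{u}} {I : Type u} [LinearOrder I] {K : Type u} [LinearOrder K]

/-- The sets caught by level `n`. -/
def Cat (S : SData lam I) (D : DSys S K) (n : I) (A : Set K) : Prop :=
  ∀ E : Set K, #E ≤ S.lv n → ∀ γ : K, ∃ α ∈ A, γ < α ∧ E ⊆ D.D n α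

/-- Good ladders whose proper initial segments are caught by the filtration -/
structure GoodI (S : SData lam I) (D : DSys S K) (n : I) (δ : K) (E : Set K) : Prop where
  good : Good (S.lv n) δ E
  init : ∀ b ∈ E, E ∩ Iio b ⊆ D.D n b

theorem cat_of_unbounded (S : SData lam I) (i0 : I) (hK : #K = Order.succ lam)
    (hI : ∀ a : K, #(Iio a) ≤ lam)
    (D : DSys S K) (A : Set K) (hA : ∀ γ, ∃ α ∈ A, γ < α) :
    ∃ n0, ∀ n, n0 ≤ n → Cat S D n A := by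
  classical
  by_contra hcon
  push Not at hcon
  have h1 : ∀ n, ∃ E : Set K, #E ≤ S.lv n ∧
      (¬ Cat S D n A → ∃ γ, ∀ α ∈ A, γ < α → ¬ E ⊆ D.D n α) := by
    intro n
    by_cases h : Cat S D n A
    · exact ⟨∅, by simp, fun h' => absurd h h'⟩
    · have h' := h
      unfold Cat at h'
      push Not at h'
      obtain ⟨E, hE, γ, hγ⟩ := h'
      exact ⟨E, hE, fun _ => ⟨γ, hγ⟩⟩
  choose E hE1 hE2 using h1
  obtain ⟨i, hi⟩ := D.capture E hE1
  have hγ : ∀ n, ∃ γ, ¬ Cat S D n A → ∀ α ∈ A, γ < α → ¬ E n ⊆ D.D n α := by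
    intro n
    by_cases h : Cat S D n A
    · exact ⟨i, fun h' => absurd h h'⟩
    · obtain ⟨γ, hγ⟩ := hE2 n h
      exact ⟨γ, fun _ => hγ⟩
  choose γ hγ using hγ
  have hlam : ℵ₀ ≤ lam := S.lam_inf i0
  have hIlam : #I ≤ lam := (S.card_le i0).trans (S.lt_lam i0).le
  obtain ⟨b, hb⟩ := strict_bound hlam hK hI ({i} ∪ range γ ∪ ⋃ n, E n) (by
    refine small_union hlam (small_union hlam ?_ ?_) ?_
    · exact small_subsingleton hlam subsingleton_singleton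
    · exact Cardinal.mk_range_le.trans hIlam
    · exact small_iUnion hlam hIlam _ (fun n => (hE1 n).trans (S.lt_lam n).le))
  obtain ⟨α, hαA, hbα⟩ := hA b
  have hiα : i < α := (hb i (Or.inl (Or.inl rfl))).trans hbα
  obtain ⟨n0, hn0⟩ := hi α hiα
  obtain ⟨n, hn, hncat⟩ := hcon n0
  refine hγ n hncat α hαA ((hb _ (Or.inl (Or.inr ⟨n, rfl⟩))).trans hbα) ?_
  intro x hx
  refine hn0 n hn ⟨hx, ?_⟩
  exact (hb x (Or.inr (mem_iUnion.2 ⟨n, hx⟩))).trans hbα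

end

section
variable {lam : Cardinal.{u}} {I : Type u} [LinearOrder I] {K : Type u} [LinearOrder K]
  [WellFoundedLT K]

/-- caught sets are guessed on coherent ladders of order type `(lv n)⁺` -/
theorem guessI (S : SData lam I) (hK : #K = Order.succ lam) (hI : ∀ a : K, #(Iio a) ≤ lam)
    (hG : ∀ i, (2 : Cardinal.{u}) ^ S.lv i ≤ lam)
    (a : K → Xi S → Set K) (idx : (Xi S → Set K) → K)
    (ha : ∀ F : Xi S → Set K, (∀ ξ, #(F ξ) ≤ lam) → a (idx F) = F)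
    (g : K → K → FL S) (hg : ∀ α, InjOn (g α) (Iio α)) (D : DSys S K) (n : I) :
    ∃ E : K → Set K, ∀ A : Set K, Cat S D n A → ∃ δ, E δ ⊆ A ∧ GoodI S D n δ (E δ) := by
  classical
  by_contra hcon
  push Not at hcon
  have h1 : ∀ ξ : Xi S, ∃ A : Set K, Cat S D n A ∧
      ∀ δ, lad S a g ξ δ ⊆ A → ¬ GoodI S D n δ (lad S a g ξ δ) :=
    fun ξ => hcon (lad S a g ξ)
  choose A hA hfail using h1
  have hlam : ℵ₀ ≤ lam := S.lam_inf n
  have hc := S.inf n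
  have hclam : S.lv n ≤ lam := (S.lt_lam n).le
  -- the well-order of length `(lv n)⁺`
  let W := (Order.succ (S.lv n)).ord.ToType
  have hWcard : #W = Order.succ (S.lv n) := Cardinal.mk_ord_toType _
  have hWlam : #W ≤ lam := by
    rw [hWcard]
    exact (S.succ_lt _ (S.lt_lam n)).le
  have hWI : ∀ w : W, #(Iio w) ≤ S.lv n := by
    intro w
    have h := Cardinal.mk_Iio_lt w (by rw [hWcard]; simp [W])
    rw [hWcard] at h
    exact Order.lt_succ_iff.1 h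
  have hWnot : ¬ #(univ : Set W) ≤ S.lv n := by
    rw [Cardinal.mk_univ, hWcard]
    exact not_le.2 (Order.lt_succ _)
  have hWIic : ∀ w : W, #(Iic w) ≤ S.lv n := fun w => small_Iic hc (hWI w)
  have hWunb : ∀ J : Set W, (¬ #J ≤ S.lv n) → ∀ w, ∃ v ∈ J, w < v := by
    intro J hJ w
    by_contra h
    push Not at h
    exact hJ (small_mono (fun v hv => h v hv) (hWIic w))
  have hXine : Nonempty (Xi S) := ⟨⟨n, ∅⟩⟩
  have hXi := mk_Xi S n hG
  have hKne : Nonempty K := by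
    rw [← Cardinal.mk_ne_zero_iff, hK]
    exact (Order.bot_lt_succ lam).ne'
  -- initial segments of the construction
  let seg : (W → Xi S → K) → W → Xi S → Set K := fun B μ ξ => {x | ∃ ρ < μ, x = B ρ ξ}
  have hseg : ∀ B μ ξ, #(seg B μ ξ) ≤ S.lv n := by
    intro B μ ξ
    have : seg B μ ξ ⊆ (fun ρ => B ρ ξ) '' Iio μ := by
      rintro x ⟨ρ, hρ, rfl⟩
      exact ⟨ρ, hρ, rfl⟩
    exact small_mono this (Cardinal.mk_image_le.trans (hWI μ))
  obtain ⟨B, hB⟩ := rec_choice (ι := W) (β := Xi S → K) (r := (· < ·)) wellFounded_lt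
    (fun ν B b => ∀ ξ, b ξ ∈ A ξ ∧ seg B ν ξ ⊆ D.D n (b ξ) ∧
      (∀ μ < ν, ∀ ξ', B μ ξ' < b ξ) ∧ (∀ μ ≤ ν, idx (seg B μ) < b ξ))
    (by
      intro ν f f' b hff h ξ
      have hsegeq : ∀ μ ≤ ν, seg f μ = seg f' μ := by
        intro μ hμ
        funext ξ'
        ext x
        constructor
        · rintro ⟨ρ, hρ, rfl⟩
          exact ⟨ρ, hρ, by rw [hff ρ (lt_of_lt_of_le hρ hμ)]⟩
        · rintro ⟨ρ, hρ, rfl⟩
          exact ⟨ρ, hρ, by rw [hff ρ (lt_of_lt_of_le hρ hμ)]⟩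
      obtain ⟨h1, h2, h3, h4⟩ := h ξ
      refine ⟨h1, ?_, ?_, ?_⟩
      · rw [← hsegeq ν le_rfl]
        exact h2
      · intro μ hμ ξ'
        rw [← hff μ hμ]
        exact h3 μ hμ ξ'
      · intro μ hμ
        rw [← hsegeq μ hμ]
        exact h4 μ hμ)
    (by
      intro ν f _
      obtain ⟨γ, hγ⟩ := strict_bound hlam hK hI
        ((⋃ μ ∈ Iio ν, range (f μ)) ∪ (fun μ => idx (seg f μ)) '' Iic ν) (by
          refine small_union hlam ?_ ?_
          · refine small_biUnion hlam _ ((hWI ν).trans hclam) _ ?_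
            intro μ _
            exact Cardinal.mk_range_le.trans hXi
          · exact Cardinal.mk_image_le.trans ((hWIic ν).trans hclam))
      have : ∀ ξ, ∃ α ∈ A ξ, γ < α ∧ seg f ν ξ ⊆ D.D n α :=
        fun ξ => hA ξ (seg f ν ξ) (hseg f ν ξ) γ
      choose b hb1 hb2 hb3 using this
      refine ⟨b, fun ξ => ⟨hb1 ξ, hb3 ξ, ?_, ?_⟩⟩
      · intro μ hμ ξ'
        refine (hγ _ (Or.inl ?_)).trans (hb2 ξ)
        simp only [mem_iUnion]
        exact ⟨μ, hμ, ξ', rfl⟩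
      · intro μ hμ
        exact (hγ _ (Or.inr ⟨μ, hμ, rfl⟩)).trans (hb2 ξ))
  -- the supremum
  have hbdd : ∃ γ : K, ∀ ν ξ, B ν ξ < γ := by
    obtain ⟨γ, hγ⟩ := strict_bound hlam hK hI (⋃ ν : W, range (B ν)) (by
      refine small_iUnion hlam hWlam _ ?_
      intro ν
      exact Cardinal.mk_range_le.trans hXi)
    exact ⟨γ, fun ν ξ => hγ _ (mem_iUnion.2 ⟨ν, ξ, rfl⟩)⟩
  obtain ⟨δ, hδ1, hδ2⟩ : ∃ δ : K, (∀ ν ξ, B ν ξ < δ) ∧ ∀ γ < δ, ∃ ν ξ, γ ≤ B ν ξ := by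
    have hwf : WellFounded ((· < ·) : K → K → Prop) := wellFounded_lt
    refine ⟨hwf.min {γ | ∀ ν ξ, B ν ξ < γ} hbdd, hwf.min_mem _ hbdd, ?_⟩
    intro γ hγ
    by_contra h
    push Not at h
    exact hwf.not_lt_min (s := {γ | ∀ ν ξ, B ν ξ < γ}) h hγ
  -- codes
  let β : W → K := fun ν => idx (seg B ν)
  have hβδ : ∀ ν, β ν < δ := by
    intro ν
    obtain ⟨ξ⟩ := hXine
    exact ((hB ν ξ).2.2.2 ν le_rfl).trans (hδ1 ν ξ)
  have haβ : ∀ ν, a (β ν) = seg B ν := fun ν =>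
    ha _ (fun ξ => (hseg B ν ξ).trans hclam)
  obtain ⟨i, hi⟩ : ∃ i : I, ¬ #{ν : W | g δ (β ν) ∈ Lv S i} ≤ S.lv n := by
    by_contra h
    push Not at h
    apply hWnot
    refine small_mono (t := ⋃ i : I, {ν : W | g δ (β ν) ∈ Lv S i}) ?_
      (small_iUnion hc (S.card_le n) _ h)
    intro ν _
    exact mem_iUnion.2 ⟨(g δ (β ν)).1, le_refl (g δ (β ν)).1⟩
  let ξ : Xi S := ⟨i, {y | ∃ ν : W, g δ (β ν) = y.1}⟩
  have hlad : lad S a g ξ δ = {x | ∃ ρ : W, x = B ρ ξ} := by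
    ext x
    constructor
    · intro hx
      unfold lad at hx
      simp only [mem_iUnion] at hx
      obtain ⟨b, ⟨hbδ, y, ⟨ν, hν⟩, hy⟩, hx⟩ := hx
      have hb : b = β ν := hg δ hbδ (hβδ ν) (hy.trans hν.symm)
      rw [hb, haβ ν] at hx
      obtain ⟨ρ, _, rfl⟩ := hx
      exact ⟨ρ, rfl⟩
    · rintro ⟨ρ, rfl⟩
      obtain ⟨ν, hν, hρν⟩ := hWunb _ hi ρ
      unfold lad
      simp only [mem_iUnion]
      refine ⟨β ν, ⟨hβδ ν, ⟨g δ (β ν), hν⟩, ⟨ν, rfl⟩, rfl⟩, ?_⟩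
      rw [haβ ν]
      exact ⟨ρ, hρν, rfl⟩
  have hmono : StrictMono (fun ν => B ν ξ) := by
    intro μ ν hμν
    exact (hB ν ξ).2.2.1 μ hμν ξ
  have hrange : {x | ∃ ρ : W, x = B ρ ξ} = range (fun ν => B ν ξ) := by
    ext x
    constructor
    · rintro ⟨ρ, rfl⟩
      exact ⟨ρ, rfl⟩
    · rintro ⟨ρ, rfl⟩
      exact ⟨ρ, rfl⟩
  refine hfail ξ δ ?_ ?_
  · rw [hlad]
    rintro x ⟨ρ, rfl⟩
    exact (hB ρ ξ).1
  · rw [hlad]
    refine ⟨⟨?_, ?_, ?_, ?_⟩, ?_⟩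
    · rintro x ⟨ρ, rfl⟩
      exact hδ1 ρ ξ
    · rw [hrange]
      exact Cardinal.mk_range_le.trans hWcard.le
    · rw [hrange]
      rw [Cardinal.mk_range_eq _ hmono.injective, hWcard]
      exact not_le.2 (Order.lt_succ _)
    · intro γ hγ
      obtain ⟨ν, ξ', hν⟩ := hδ2 γ hγ
      refine small_mono (t := (fun ρ => B ρ ξ) '' Iic ν) ?_
        (Cardinal.mk_image_le.trans (hWIic ν))
      rintro x ⟨⟨ρ, rfl⟩, hx⟩
      refine ⟨ρ, ?_, rfl⟩
      by_contra hlt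
      rw [mem_Iic, not_le] at hlt
      have h5 := (hB ρ ξ).2.2.1 ν hlt ξ'
      exact absurd (hν.trans_lt h5) (not_lt.2 hx)
    · rintro b ⟨ν, rfl⟩ x ⟨⟨ρ, rfl⟩, hlt⟩
      refine (hB ν ξ).2.1 ⟨ρ, ?_, rfl⟩
      exact hmono.lt_iff_lt.1 hlt

end

end Pool.Agent.TH764.SB
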